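import Pool.Agent.N600.G3.Stm

/-!
# G3/ENTF: image of a triangular map (helper488)
-/

set_option autoImplicit false

namespace Pool.Agent.N488.G3

open Pool.Agent.N600.G3

universe u

theorem t_entf (h2 : S_ENT2.{u}) (h3 : S_ENT3.{u}) : S_ENTF.{u} := by
  intro K B Z _ _ X m htri hm
  classical
  have e2 := h2 (Fin K → B) (Fin K → Z) X
  have e3 := h3 K B Z X htri
  have hB : (0 : ℝ) < Fintype.card B := by exact_mod_cast Fintype.card_pos
  have hcard : ((Fintype.card (Fin K → B) : ℕ) : ℝ) = (Fintype.card B : ℝ) ^ K := by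
    rw [Fintype.card_fun, Fintype.card_fin]
    push_cast
    rfl
  have hterm : ∀ (δ : Fin K → B) (k : Fin K),
      Real.log (Nat.card {x : B // X (Function.update δ k x) k = X δ k}) ≤
        Real.log (Fintype.card B) - Real.log 2 * (m δ k : ℝ) := by
    intro δ k
    have hne : Nonempty {x : B // X (Function.update δ k x) k = X δ k} :=
      ⟨⟨δ k, by rw [Function.update_eq_self]⟩⟩
    have hc : (0 : ℝ) < (Nat.card {x : B // X (Function.update δ k x) k = X δ k} : ℝ) := by
      exact_mod_cast Nat.card_pos
    have h5 : (2 : ℝ) ^ m δ k * (Nat.card {x : B // X (Function.update δ k x) k = X δ k} : ℝ) ≤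
        Fintype.card B := by exact_mod_cast hm δ k
    have h6 := Real.log_le_log (by positivity) h5
    rw [Real.log_mul (by positivity) hc.ne', Real.log_pow] at h6
    linarith
  have hsum : ∑ δ : Fin K → B, ∑ k,
      Real.log (Nat.card {x : B // X (Function.update δ k x) k = X δ k}) ≤
      (Fintype.card B : ℝ) ^ K * (K * Real.log (Fintype.card B)) -
        Real.log 2 * ∑ δ : Fin K → B, ∑ k, (m δ k : ℝ) := by
    refine (Finset.sum_le_sum fun δ _ => Finset.sum_le_sum fun k _ => hterm δ k).trans_eq ?_
    simp only [Finset.sum_sub_distrib, Finset.sum_const, Finset.card_univ, Fintype.card_fin,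
      nsmul_eq_mul, hcard, Finset.mul_sum]
  have hlog : Real.log ((Fintype.card B : ℝ) ^ K) = K * Real.log (Fintype.card B) := Real.log_pow _ _
  rw [hcard, hlog] at e2
  have := e2.trans (e3.trans hsum)
  linarith

end Pool.Agent.N488.G3
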